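import Mathlib
import Pool.Agent.H24.FD.P1

/-!
# MP_1f2761, k = 2: row PFM, the `N` marginal of a string of macro-digits
-/

set_option autoImplicit false

open Finset

namespace Pool.Agent.H24.FD

/-- the value of the `N` bits of a macro-digit is less than `2 ^ l` -/
theorem pfm_vN_lt {l : ℕ} (s : Fin l → Fin 3) : vN s < 2 ^ l := by
  have h1 : vN s ≤ ∑ i : Fin l, 2 ^ (i : ℕ) := by
    unfold vN
    apply Finset.sum_le_sum
    intro i _
    split_ifs
    · simp
    · simp
  have h2 : ∑ i : Fin l, 2 ^ (i : ℕ) = ∑ i ∈ range l, 2 ^ i :=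
    Fin.sum_univ_eq_sum_range (fun i => 2 ^ i) l
  have h3 : ∑ i ∈ range l, 2 ^ i = 2 ^ l - 1 := by
    have := Nat.geomSum_eq (m := 2) (le_refl 2) l
    simpa using this
  have h4 : 0 < 2 ^ l := by positivity
  omega

theorem pfm_VN_cons {l k : ℕ} (s : Fin l → Fin 3) (S : Fin k → Fin l → Fin 3) :
    VN (Fin.cons s S : Fin (k + 1) → Fin l → Fin 3) = vN s + 2 ^ l * VN S := by
  unfold VN
  rw [Fin.sum_univ_succ, Finset.mul_sum]
  simp only [Fin.cons_zero, Fin.cons_succ, Fin.val_zero, pow_zero, one_mul, Fin.val_succ]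
  congr 1
  apply Finset.sum_congr rfl
  intro i _
  rw [pow_succ]
  ring

theorem pfm_PF_cons {l k : ℕ} (ε : ℝ) (s : Fin l → Fin 3) (S : Fin k → Fin l → Fin 3) :
    PF ε (Fin.cons s S : Fin (k + 1) → Fin l → Fin 3) = pF ε s * PF ε S := by
  unfold PF
  rw [Fin.prod_univ_succ]
  simp only [Fin.cons_zero, Fin.cons_succ]

theorem pfm : PFMStmt := by
  classical
  intro ε l hM k
  induction k with
  | zero =>
    intro η hη
    have h0 : η = 0 := by
      have : η < 1 := by simpa using hη
      omega
    subst h0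
    have hV : ∀ S : Fin 0 → Fin l → Fin 3, VN S = 0 := by
      intro S
      simp [VN]
    have hP : ∀ S : Fin 0 → Fin l → Fin 3, PF ε S = 1 := by
      intro S
      simp [PF]
    simp [hV, hP]
  | succ k ih =>
    intro η hη
    have hpos : 0 < 2 ^ l := by positivity
    have ha : η % 2 ^ l < 2 ^ l := Nat.mod_lt _ hpos
    have hb : η / 2 ^ l < 2 ^ (l * k) := by
      rw [Nat.div_lt_iff_lt_mul hpos, ← pow_add]
      have : l * k + l = l * (k + 1) := by ring
      rw [this]
      exact hη
    have hη' : 2 ^ l * (η / 2 ^ l) + η % 2 ^ l = η := Nat.div_add_mod η (2 ^ l)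
    have key : ∀ (s : Fin l → Fin 3) (S : Fin k → Fin l → Fin 3),
        (if VN (Fin.cons s S : Fin (k + 1) → Fin l → Fin 3) = η then
          PF ε (Fin.cons s S : Fin (k + 1) → Fin l → Fin 3) else 0) =
        (if vN s = η % 2 ^ l then pF ε s else 0) *
          (if VN S = η / 2 ^ l then PF ε S else 0) := by
      intro s S
      rw [pfm_VN_cons, pfm_PF_cons]
      have hs := pfm_vN_lt s
      by_cases h1 : vN s = η % 2 ^ l
      · by_cases h2 : VN S = η / 2 ^ l
        · have h3 : vN s + 2 ^ l * VN S = η := by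
            rw [h1, h2]; omega
          rw [if_pos h3, if_pos h1, if_pos h2]
        · have h3 : ¬ (vN s + 2 ^ l * VN S = η) := by
            intro h
            apply h2
            rw [← h, Nat.add_mul_div_left _ _ hpos, Nat.div_eq_of_lt hs, zero_add]
          rw [if_neg h3, if_neg h2, mul_zero]
      · have h3 : ¬ (vN s + 2 ^ l * VN S = η) := by
          intro h
          apply h1
          rw [← h, Nat.add_mul_mod_self_left, Nat.mod_eq_of_lt hs]
        rw [if_neg h3, if_neg h1, zero_mul]
    have e1 : ∑ S : Fin (k + 1) → Fin l → Fin 3, (if VN S = η then PF ε S else 0) =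
        ∑ x : (Fin l → Fin 3) × (Fin k → Fin l → Fin 3),
          (if VN (Fin.cons x.1 x.2 : Fin (k + 1) → Fin l → Fin 3) = η then
            PF ε (Fin.cons x.1 x.2 : Fin (k + 1) → Fin l → Fin 3) else 0) := by
      symm
      apply Fintype.sum_equiv (Fin.consEquiv (fun _ : Fin (k + 1) => Fin l → Fin 3))
      intro x
      rfl
    rw [e1, Fintype.sum_prod_type]
    simp only [key]
    have e2 : ∑ s : Fin l → Fin 3, ∑ S : Fin k → Fin l → Fin 3,
        (if vN s = η % 2 ^ l then pF ε s else 0) * (if VN S = η / 2 ^ l then PF ε S else 0) =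
        (∑ s : Fin l → Fin 3, (if vN s = η % 2 ^ l then pF ε s else 0)) *
          ∑ S : Fin k → Fin l → Fin 3, (if VN S = η / 2 ^ l then PF ε S else 0) := by
      rw [Finset.sum_mul_sum]
    rw [e2]
    have m1 := hM (η % 2 ^ l) ha
    have m2 := ih (η / 2 ^ l) hb
    have m1' : ∑ s : Fin l → Fin 3, (if vN s = η % 2 ^ l then pF ε s else 0) = 1 / 2 ^ l := by
      convert m1 using 2
    have m2' : ∑ S : Fin k → Fin l → Fin 3, (if VN S = η / 2 ^ l then PF ε S else 0) =
        1 / 2 ^ (l * k) := by
      convert m2 using 2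
    rw [m1', m2']
    have : l * (k + 1) = l + l * k := by ring
    rw [this, pow_add]
    field_simp

end Pool.Agent.H24.FD
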